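import Pool.Agent.Helper98.JN.B

/-!
# Approximation from inside, and the joins of planar compact sets, blocks and points
-/

set_option autoImplicit false

namespace Pool.Agent.Helper98.JN

open MeasureTheory Set Filter Topology
open scoped ENNReal NNReal Pointwise
open Pool.Agent.Y513.LPM (E Z mahlerLp supportLp)
open Pool.Agent.Helper57K1.LM

variable {n : ℕ} {p : ℝ}

/-- from finite subsets to compact sets -/
theorem compact_of_finite (hp : 0 < p) {k : ℕ} (L : Fin k → Set (E n))
    (hL : ∀ i, IsCompact (L i)) (A : Finset (E n))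
    (base : ∀ S : Fin k → Finset (E n), (∀ i, (S i : Set (E n)) ⊆ L i) →
      (interior (convexHull ℝ ((⋃ i, (S i : Set (E n))) ∪ ↑A))).Nonempty → ∀ z : E n,
      minS p n ≤ mahlerLp p ((fun x => x - z) '' convexHull ℝ ((⋃ i, (S i : Set (E n))) ∪ ↑A)))
    (hint : (interior (convexHull ℝ ((⋃ i, L i) ∪ ↑A))).Nonempty) (z : E n) :
    minS p n ≤ mahlerLp p ((fun x => x - z) '' convexHull ℝ ((⋃ i, L i) ∪ ↑A)) := by
  classical
  set K : Set (E n) := convexHull ℝ ((⋃ i, L i) ∪ ↑A) with hK
  have hKc : IsCompact K :=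
    Pool.Agent.H73R3.compact_hull ((isCompact_iUnion hL).union A.finite_toSet.isCompact)
  have hKv : Convex ℝ K := convex_convexHull ℝ _
  set K' : Set (E n) := (fun x => x - z) '' K with hK'
  have hK'c : IsCompact K' := hKc.image (by fun_prop)
  have hsub : ∀ X : Set (E n), (fun x => x - z) '' X = (fun x => -z + x) '' X := fun X =>
    image_congr fun x _ => by abel
  have hK'v : Convex ℝ K' := by rw [hK', hsub]; exact hKv.translate (-z)
  have hK'i : (interior K').Nonempty := by
    rw [hK', interior_sub]; exact hint.image _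
  by_cases h0 : (0 : E n) ∈ interior K'
  swap
  · rw [mahler_eq_top hp hK'c hK'v hK'i h0]
    exact le_top
  have hfin := mahler_ne_top hp hK'c hK'v h0
  obtain ⟨r, hr, hball⟩ := Metric.mem_nhds_iff.1 (mem_interior_iff_mem_nhds.1 h0)
  have hball' : Metric.closedBall (0 : E n) (r / 2) ⊆ K' :=
    (Metric.closedBall_subset_ball (by linarith)).trans hball
  -- the estimate for each `ε`
  have key : ∀ ε : ℝ, 0 < ε → ε < 1 → minS p n ≤
      ENNReal.ofReal ((1 - ε)⁻¹ ^ n * Real.exp ((1 / p) * Real.log ((1 - ε)⁻¹ ^ n))) *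
        mahlerLp p K' := by
    intro ε hε0 hε1
    have hη : 0 < ε * (r / 2) := by positivity
    have hnet : ∀ i, ∃ t ⊆ L i, t.Finite ∧ L i ⊆ ⋃ x ∈ t, Metric.ball x (ε * (r / 2)) :=
      fun i => (hL i).finite_cover_balls hη
    choose t htL htf htc using hnet
    set S : Fin k → Finset (E n) := fun i => (htf i).toFinset with hS
    have hSt : ∀ i, (S i : Set (E n)) = t i := fun i => by simp [hS]
    set Q : Set (E n) := convexHull ℝ ((⋃ i, (S i : Set (E n))) ∪ ↑A) with hQ
    have hQK : Q ⊆ K := by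
      apply convexHull_mono
      refine union_subset_union_left _ (iUnion_mono fun i => ?_)
      rw [hSt]; exact htL i
    have hQc : IsCompact Q := Pool.Agent.H73R3.compact_hull
      ((isCompact_iUnion fun i => (S i).finite_toSet.isCompact).union A.finite_toSet.isCompact)
    have hnear : ∀ x ∈ K, ∃ q ∈ Q, ‖x - q‖ ≤ ε * (r / 2) := by
      intro x hx
      have h : K ⊆ {x | ∃ q ∈ Q, ‖x - q‖ ≤ ε * (r / 2)} := by
        refine convexHull_min ?_ ?_
        · rintro y (hy | hy)
          · obtain ⟨i, hi⟩ := mem_iUnion.1 hy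
            obtain ⟨s, hs, hys⟩ := mem_iUnion₂.1 (htc i hi)
            refine ⟨s, subset_convexHull ℝ _ (Or.inl (mem_iUnion.2 ⟨i, ?_⟩)), ?_⟩
            · rw [hSt]; exact hs
            · rw [← dist_eq_norm]; exact (Metric.mem_ball.1 hys).le
          · exact ⟨y, subset_convexHull ℝ _ (Or.inr hy), by simp; positivity⟩
        · rintro y ⟨q, hq, hyq⟩ y' ⟨q', hq', hyq'⟩ a b ha hb hab
          refine ⟨a • q + b • q', (convex_convexHull ℝ _) hq hq' ha hb hab, ?_⟩
          have h1 : a • y + b • y' - (a • q + b • q') = a • (y - q) + b • (y' - q') := by module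
          rw [h1]
          refine (norm_add_le _ _).trans ?_
          rw [norm_smul, norm_smul, Real.norm_of_nonneg ha, Real.norm_of_nonneg hb]
          calc a * ‖y - q‖ + b * ‖y' - q'‖ ≤ a * (ε * (r / 2)) + b * (ε * (r / 2)) := by gcongr
            _ = ε * (r / 2) := by rw [← add_mul, hab, one_mul]
      exact h hx
    set Q' : Set (E n) := (fun x => x - z) '' Q with hQ'
    have hQ'c : IsCompact Q' := hQc.image (by fun_prop)
    have hQ'v : Convex ℝ Q' := by
      rw [hQ', hsub]; exact (convex_convexHull ℝ _).translate (-z)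
    have hnear' : ∀ x ∈ K', ∃ q ∈ Q', ‖x - q‖ ≤ ε * (r / 2) := by
      rintro _ ⟨x, hx, rfl⟩
      obtain ⟨q, hq, hxq⟩ := hnear x hx
      refine ⟨q - z, ⟨q, hq, rfl⟩, ?_⟩
      have : x - z - (q - z) = x - q := by abel
      rw [this]; exact hxq
    have hcan := cancel hQ'v hQ'c.isClosed hK'c (by positivity) hball' hε0.le hε1.le le_rfl hnear'
    have hτ : (0 : ℝ) < 1 - ε := by linarith
    -- the dilate of `Q'`
    set Am : E n ≃ₗ[ℝ] E n := LinearEquiv.smulOfNeZero ℝ (E n) (1 - ε)⁻¹ (inv_ne_zero hτ.ne') with hAm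
    have hAmx : ∀ x, Am x = (1 - ε)⁻¹ • x := fun x => rfl
    have hK'Q : K' ⊆ Am '' Q' := by
      intro x hx
      refine ⟨_, hcan x hx, ?_⟩
      rw [hAmx, smul_smul, inv_mul_cancel₀ hτ.ne', one_smul]
    have hAc : IsCompact (Am '' Q') := hQ'c.image (by
      exact LinearMap.continuous_of_finiteDimensional (Am : E n →ₗ[ℝ] E n))
    have hVK' : 0 < volume K' :=
      (isOpen_interior.measure_pos volume hK'i).trans_le (measure_mono interior_subset)
    have hvA : volume.real (Am '' Q') = (1 - ε)⁻¹ ^ n * volume.real Q' := by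
      have h1 : Am '' Q' = (1 - ε)⁻¹ • Q' := by
        rw [← image_smul]
        rfl
      unfold Measure.real
      rw [h1, Measure.addHaar_smul, ENNReal.toReal_mul, abs_of_pos (by positivity),
        ENNReal.toReal_ofReal (by positivity)]
      simp
    have hQ'K' : Q' ⊆ K' := image_mono hQK
    have hvle : volume.real (Am '' Q') ≤ (1 - ε)⁻¹ ^ n * volume.real K' := by
      rw [hvA]
      exact mul_le_mul_of_nonneg_left (measureReal_mono hQ'K' hK'c.measure_lt_top.ne)
        (by positivity)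
    have hVQ' : 0 < volume Q' := by
      have h1 : 0 < volume (Am '' Q') := hVK'.trans_le (measure_mono hK'Q)
      have h2 : 0 < volume.real (Am '' Q') :=
        ENNReal.toReal_pos h1.ne' hAc.measure_lt_top.ne
      rw [hvA] at h2
      have h3 : 0 < volume.real Q' := by
        by_contra h
        have : volume.real Q' = 0 := le_antisymm (not_lt.1 h) measureReal_nonneg
        rw [this, mul_zero] at h2
        exact lt_irrefl _ h2
      exact (ENNReal.toReal_pos_iff.1 h3).1
    have h1 := mahler_nested hp hK'c hAc hK'Q hVK' hvle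
    rw [mahler_linear Am hQ'c hVQ'] at h1
    refine le_trans ?_ h1
    have hintQ : (interior Q).Nonempty := by
      have hQ'i : (interior Q').Nonempty := by
        refine ⟨0, mem_interior_iff_mem_nhds.2 (Metric.mem_nhds_iff.2
          ⟨(1 - ε) * r, by positivity, fun y hy => ?_⟩)⟩
        have h3 : (1 - ε)⁻¹ • y ∈ K' := by
          apply hball
          rw [mem_ball_zero_iff] at hy ⊢
          rw [norm_smul, norm_inv, Real.norm_of_nonneg hτ.le, inv_mul_lt_iff₀ hτ]
          exact hy
        have h4 := hcan _ h3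
        rwa [smul_smul, mul_inv_cancel₀ hτ.ne', one_smul] at h4
      rw [hQ', interior_sub] at hQ'i
      exact hQ'i.of_image
    exact base S (fun i => by rw [hSt]; exact htL i) hintQ z
  -- passage to the limit
  have hlim : Tendsto (fun ε : ℝ => ENNReal.ofReal ((1 - ε)⁻¹ ^ n *
      Real.exp ((1 / p) * Real.log ((1 - ε)⁻¹ ^ n))) * mahlerLp p K') (𝓝[>] 0)
      (𝓝 (ENNReal.ofReal 1 * mahlerLp p K')) := by
    refine ENNReal.Tendsto.mul_const ?_ (Or.inr hfin)
    refine ENNReal.tendsto_ofReal ?_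
    have hc : ContinuousAt (fun ε : ℝ => (1 - ε)⁻¹ ^ n *
      Real.exp ((1 / p) * Real.log ((1 - ε)⁻¹ ^ n))) 0 := by
      have h1 : ContinuousAt (fun ε : ℝ => (1 - ε)⁻¹ ^ n) 0 := by
        refine ContinuousAt.pow ?_ n
        exact ContinuousAt.inv₀ (by fun_prop) (by norm_num)
      refine h1.mul ?_
      refine Real.continuous_exp.continuousAt.comp ?_
      refine continuousAt_const.mul ?_
      exact h1.log (by simp)
    have h2 := hc.tendsto
    simp only [sub_zero, inv_one, one_pow, Real.log_one, mul_zero, Real.exp_zero, mul_one] at h2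
    exact h2.mono_left nhdsWithin_le_nhds
  rw [ENNReal.ofReal_one, one_mul] at hlim
  refine ge_of_tendsto hlim ?_
  have h1 : ∀ᶠ ε : ℝ in 𝓝[>] 0, ε ∈ Ioo (0 : ℝ) 1 := Ioo_mem_nhdsGT one_pos
  filter_upwards [h1] with ε hε
  exact key ε hε.1 hε.2


/-- **joins of planar compact sets, blocks of `d + 2` points in dimension `d`, and points** -/
theorem joinsC (hp : 0 < p) {l : ℕ} (d : Fin l → ℕ) {k m : ℕ}
    (hkm : 3 * k + ∑ j, (d j + 1) + m ≤ n + 1)
    (W : Fin l → Finset (E n)) (hW : ∀ j, (W j).card ≤ d j + 2)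
    (hWd : ∀ j, Module.finrank ℝ (lsp (W j : Set (E n))) ≤ d j + 1)
    (L : Fin k → Set (E n)) (hL : ∀ i, IsCompact (L i)) (D : Fin k → Submodule ℝ (E n))
    (hD : ∀ i, Module.finrank ℝ (D i) ≤ 2) (o : Fin k → E n)
    (hLD : ∀ i, ∀ x ∈ L i, x - o i ∈ D i) (A : Finset (E n)) (hA : A.card ≤ m)
    (hint : (interior (convexHull ℝ ((⋃ i, L i) ∪ ((⋃ j, (W j : Set (E n))) ∪ ↑A)))).Nonempty)
    (z : E n) :
    minS p n ≤ mahlerLp p ((fun x => x - z) ''
      convexHull ℝ ((⋃ i, L i) ∪ ((⋃ j, (W j : Set (E n))) ∪ ↑A))) := by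
  classical
  have hc : (((Finset.univ.biUnion W) ∪ A : Finset (E n)) : Set (E n)) =
      (⋃ j, (W j : Set (E n))) ∪ ↑A := by
    push_cast
    simp
  rw [← hc] at hint ⊢
  refine compact_of_finite hp L hL _ ?_ hint z
  intro S hS hiS z'
  rw [hc] at hiS ⊢
  exact joinsB hp l d k m hkm W hW hWd S D hD o (fun i x hx => hLD i x (hS i hx)) A hA hiS z'

end Pool.Agent.Helper98.JN
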