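import Pool.Agent.Helper57K1.LM.O

/-!
# Moving a vertex of a block with one affine dependence

Generalisation of `Pool.Agent.Helper57K1.LM.few_aux` to an arbitrary finite family of points with a
block `B` of indices such that all the affine dependences of the family are proportional on `B`.
-/

set_option autoImplicit false

namespace Pool.Agent.Helper98.JN

open MeasureTheory Set Filter Topology
open scoped ENNReal NNReal
open Pool.Agent.Y513.LPM (E Z mahlerLp supportLp)
open Pool.Agent.Helper57K1.LM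

variable {n : ℕ} {p : ℝ} {J : Type} [Fintype J] [DecidableEq J]

/-- coordinates of the block -/
lemma exists_coordG {w : J → E n} (hi : (interior (convexHull ℝ (range w))).Nonempty)
    {κ : J → ℝ} {i₀ : J} (h0 : κ i₀ ≠ 0)
    (hD : ∀ c : J → ℝ, ∑ i, c i = 0 → ∑ i, c i • w i = 0 →
      ∃ r : ℝ, ∀ i, κ i ≠ 0 → c i = r * κ i) :
    ∃ b : E n → J → ℝ, Continuous b ∧
      (∀ c : J → ℝ, ∑ i, c i = 1 → ∀ i, κ i ≠ 0 →
        b (∑ i, c i • w i) i = c i - c i₀ / κ i₀ * κ i) := by
  set Ψ : (J → ℝ) →ₗ[ℝ] (E n × ℝ) :=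
    { toFun := fun c => (∑ j, c j • w j, ∑ j, c j)
      map_add' := fun c d => by
        ext1
        · simp [add_smul, Finset.sum_add_distrib]
        · simp [Finset.sum_add_distrib]
      map_smul' := fun r c => by
        ext1
        · simp [mul_smul, Finset.smul_sum]
        · simp [Finset.mul_sum] } with hΨ
  have hval : ∀ c : J → ℝ, Ψ c = (∑ j, c j • w j, ∑ j, c j) := fun c => rfl
  have hsurj : Function.Surjective Ψ := by
    rintro ⟨y, r⟩
    obtain ⟨c, hc1, hc⟩ := exists_affine hi y
    obtain ⟨d, hd1, hd⟩ := exists_affine hi 0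
    refine ⟨fun i => c i - (1 - r) * d i, ?_⟩
    rw [hval]
    ext1
    · simp only [sub_smul, Finset.sum_sub_distrib, mul_smul, ← Finset.smul_sum]
      rw [hc, hd]; simp
    · simp only [Finset.sum_sub_distrib, ← Finset.mul_sum]
      rw [hc1, hd1]; ring
  obtain ⟨g, hg⟩ := Ψ.exists_rightInverse_of_surjective (LinearMap.range_eq_top.2 hsurj)
  have hg' : ∀ y, Ψ (g y) = y := fun y => by
    have := congrArg (fun f => f y) hg
    simpa using this
  have hgc : Continuous g := LinearMap.continuous_of_finiteDimensional g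
  refine ⟨fun x i => g (x, 1) i - g (x, 1) i₀ / κ i₀ * κ i, ?_, ?_⟩
  · refine continuous_pi fun i => ?_
    have h1 : Continuous fun x : E n => g (x, (1 : ℝ)) := hgc.comp (by fun_prop)
    exact ((continuous_apply i).comp h1).sub
      ((((continuous_apply i₀).comp h1).div_const _).mul continuous_const)
  · intro c hc i hκi
    have h1 := hg' (∑ i, c i • w i, 1)
    rw [hval] at h1
    have h2 : ∑ j, g (∑ i, c i • w i, 1) j • w j = ∑ i, c i • w i := congrArg Prod.fst h1
    have h3 : ∑ j, g (∑ i, c i • w i, 1) j = 1 := congrArg Prod.snd h1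
    obtain ⟨r, hr⟩ := hD (fun i => g (∑ i, c i • w i, 1) i - c i) (by
      rw [Finset.sum_sub_distrib, h3, hc, sub_self]) (by
      simp only [sub_smul, Finset.sum_sub_distrib]
      rw [h2, sub_self])
    have h4 := hr i hκi
    have h5 := hr i₀ h0
    dsimp only
    have h6 : g (∑ i, c i • w i, 1) i = c i + r * κ i := by linarith
    have h7 : g (∑ i, c i • w i, 1) i₀ = c i₀ + r * κ i₀ := by linarith
    rw [h6, h7]
    field_simp
    ring

/-- the positive part of an affine dependence -/
noncomputable def posG (κ : J → ℝ) : Finset J := Finset.univ.filter fun i => 0 < κ i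

lemma mem_posG (κ : J → ℝ) (i : J) : i ∈ posG κ ↔ 0 < κ i := by
  unfold posG; simp

/-- representation with prescribed weight of the moving vertex -/
lemma exists_repG {w w' : J → E n} {κ κ' : J → ℝ} {i₀ : J}
    (h0 : 0 < κ i₀) {b : E n → J → ℝ}
    (hb : ∀ c : J → ℝ, ∑ i, c i = 1 → ∀ i, κ i ≠ 0 →
        b (∑ i, c i • w i) i = c i - c i₀ / κ i₀ * κ i)
    (hww : ∀ j, j ≠ i₀ → w' j = w j) (hpos : ∀ i, 0 < κ i → κ' i = κ i)
    (hneg : ∀ i, κ i ≤ 0 → κ' i ≤ 0) (hκ' : ∑ i, κ' i = 0) (hκw' : ∑ i, κ' i • w' i = 0)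
    {x : E n} (hx : x ∈ convexHull ℝ (range w')) :
    ∃ c : J → ℝ, (∀ i, 0 ≤ c i) ∧ ∑ i, c i = 1 ∧ ∑ i, c i • w' i = x ∧
      c i₀ = κ i₀ * (posG κ).sup' ⟨i₀, (mem_posG κ i₀).2 h0⟩ (fun i => -b x i / κ i) := by
  obtain ⟨c, hc0, hc1, hc⟩ := (mem_hull w' x).1 hx
  have hne : (posG κ).Nonempty := ⟨i₀, (mem_posG κ i₀).2 h0⟩
  obtain ⟨k, hk, hmin⟩ := Finset.exists_min_image (posG κ) (fun i => c i / κ i) hne
  have hk0 : 0 < κ k := (mem_posG κ k).1 hk
  set s := c k / κ k with hs
  have hs0 : 0 ≤ s := div_nonneg (hc0 k) hk0.le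
  set d : J → ℝ := fun i => c i - s * κ' i with hd
  have hd0 : ∀ i, 0 ≤ d i := by
    intro i
    simp only [hd]
    rcases lt_or_ge 0 (κ i) with h | h
    · have h1 := hmin i ((mem_posG κ i).2 h)
      rw [hpos i h]
      have h2 : s * κ i ≤ c i := by
        rw [← le_div_iff₀ h]; exact h1
      linarith
    · have := hneg i h
      have := hc0 i
      nlinarith
  have hd1 : ∑ i, d i = 1 := by
    simp only [hd, Finset.sum_sub_distrib, ← Finset.mul_sum]
    rw [hc1, hκ', mul_zero, sub_zero]
  have hdx : ∑ i, d i • w' i = x := by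
    simp only [hd, sub_smul, Finset.sum_sub_distrib, mul_smul, ← Finset.smul_sum]
    rw [hc, hκw', smul_zero, sub_zero]
  refine ⟨d, hd0, hd1, hdx, ?_⟩
  -- the coordinates of `x`
  have hκ0 : κ' i₀ = κ i₀ := hpos i₀ h0
  set f : J → ℝ := fun i => d i - d i₀ / κ i₀ * κ' i with hf
  have hf0 : f i₀ = 0 := by
    simp only [hf]
    rw [hκ0]
    field_simp
    ring
  have hf1 : ∑ i, f i = 1 := by
    simp only [hf, Finset.sum_sub_distrib, ← Finset.mul_sum]
    rw [hd1, hκ', mul_zero, sub_zero]
  have hfx : ∑ i, f i • w i = x := by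
    have h1 : ∑ i, f i • w i = ∑ i, f i • w' i := by
      refine Finset.sum_congr rfl fun i _ => ?_
      rcases eq_or_ne i i₀ with rfl | h
      · rw [hf0, zero_smul, zero_smul]
      · rw [hww i h]
    rw [h1]
    simp only [hf, sub_smul, Finset.sum_sub_distrib, mul_smul, ← Finset.smul_sum]
    rw [hdx, hκw', smul_zero, sub_zero]
  have hbx : ∀ i, κ i ≠ 0 → b x i = f i := by
    intro i hi
    rw [← hfx, hb f hf1 i hi, hf0]
    simp
  have hval : ∀ i, 0 < κ i → -b x i / κ i = d i₀ / κ i₀ - d i / κ i := by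
    intro i hi
    rw [hbx i hi.ne']
    simp only [hf]
    rw [hpos i hi]
    field_simp
    ring
  have hsup : (posG κ).sup' hne (fun i => -b x i / κ i) = d i₀ / κ i₀ := by
    apply le_antisymm
    · refine Finset.sup'_le _ _ fun i hi => ?_
      have hi' := (mem_posG κ i).1 hi
      rw [hval i hi']
      have : 0 ≤ d i / κ i := div_nonneg (hd0 i) hi'.le
      linarith
    · have h1 : -b x k / κ k = d i₀ / κ i₀ := by
        rw [hval k hk0]
        have : d k = 0 := by
          simp only [hd]
          rw [hpos k hk0, hs]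
          field_simp
          ring
        rw [this, zero_div, sub_zero]
      rw [← h1]
      exact Finset.le_sup' (fun i => -b x i / κ i) hk
  rw [hsup]
  field_simp

/-- the weight of the moving vertex -/
noncomputable def wtG (κ : J → ℝ) {i₀ : J} (h0 : 0 < κ i₀)
    (b : E n → J → ℝ) (x : E n) : ℝ :=
  κ i₀ * (posG κ).sup' ⟨i₀, (mem_posG κ i₀).2 h0⟩ (fun i => -b x i / κ i)

lemma wtG_cont {κ : J → ℝ} {i₀ : J} (h0 : 0 < κ i₀)
    {b : E n → J → ℝ} (hb : Continuous b) : Continuous (wtG κ h0 b) := by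
  unfold wtG
  refine continuous_const.mul ?_
  refine Continuous.finset_sup'_apply _ fun i _ => ?_
  exact (((continuous_apply i).comp hb).neg).div_const _

section
variable {w : J → E n} {κ : J → ℝ} {i₀ j₁ j₂ : J} {b : E n → J → ℝ}

lemma wtG_inv (hi : (interior (convexHull ℝ (range w))).Nonempty)
    (h0 : 0 < κ i₀) (hj1 : κ j₁ < 0) (hj2 : κ j₂ < 0)
    (hb : ∀ c : J → ℝ, ∑ i, c i = 1 → ∀ i, κ i ≠ 0 →
        b (∑ i, c i • w i) i = c i - c i₀ / κ i₀ * κ i) (x : E n) (s : ℝ) :
    wtG κ h0 b (x + s • (w j₂ - w j₁)) = wtG κ h0 b x := by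
  obtain ⟨c, hc1, hc⟩ := exists_affine hi x
  have hij1 : i₀ ≠ j₁ := by rintro rfl; linarith
  have hij2 : i₀ ≠ j₂ := by rintro rfl; linarith
  have h1 : ∀ i, 0 < κ i → b (x + s • (w j₂ - w j₁)) i = b x i := by
    intro i hi
    have hi1 : i ≠ j₁ := by rintro rfl; linarith
    have hi2 : i ≠ j₂ := by rintro rfl; linarith
    set d : J → ℝ := fun k => c k + s * ((if k = j₂ then 1 else 0) -
      (if k = j₁ then 1 else 0)) with hd
    have hd1 : ∑ k, d k = 1 := by
      simp only [hd, Finset.sum_add_distrib, ← Finset.mul_sum, Finset.sum_sub_distrib]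
      rw [hc1]; simp
    have hdx : ∑ k, d k • w k = x + s • (w j₂ - w j₁) := by
      simp only [hd, add_smul, Finset.sum_add_distrib, mul_smul, sub_smul,
        ← Finset.smul_sum, Finset.sum_sub_distrib]
      rw [hc]; simp
    have h2 := hb d hd1 i hi.ne'
    have h3 := hb c hc1 i hi.ne'
    rw [hdx] at h2
    rw [hc] at h3
    rw [h2, h3]
    simp [hd, hi1, hi2, hij1, hij2]
  unfold wtG
  congr 1
  refine Finset.sup'_congr _ rfl fun i hi => ?_
  rw [h1 i ((mem_posG κ i).1 hi)]

/-- combinations of the two families -/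
lemma comb_update {c : J → ℝ} {t : ℝ} {v : E n} {w' : J → E n}
    (hw' : w' = Function.update w i₀ (w i₀ + t • v)) :
    ∑ i, c i • w' i = ∑ i, c i • w i + (c i₀ * t) • v := by
  have h1 : ∀ i, c i • w' i = c i • w i + (if i = i₀ then (c i₀ * t) • v else 0) := by
    intro i
    rcases eq_or_ne i i₀ with rfl | h
    · rw [hw', Function.update_self]; simp only [if_true]; module
    · rw [hw', Function.update_of_ne h]; simp [h]
  simp_rw [h1, Finset.sum_add_distrib]
  simp

lemma shear_imageG (hi : (interior (convexHull ℝ (range w))).Nonempty)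
    (hκ : ∑ i, κ i = 0) (hκw : ∑ i, κ i • w i = 0)
    (h0 : 0 < κ i₀) (hj1 : κ j₁ < 0) (hj2 : κ j₂ < 0) (hne : j₁ ≠ j₂)
    (hb : ∀ c : J → ℝ, ∑ i, c i = 1 → ∀ i, κ i ≠ 0 →
        b (∑ i, c i • w i) i = c i - c i₀ / κ i₀ * κ i) {t : ℝ}
    {κ' : J → ℝ}
    (hκ'1 : κ' j₁ = κ j₁ + κ i₀ * t) (hκ'2 : κ' j₂ = κ j₂ - κ i₀ * t)
    (hκ'3 : ∀ i, i ≠ j₁ → i ≠ j₂ → κ' i = κ i)
    (ht1 : κ j₁ + κ i₀ * t ≤ 0) (ht2 : κ j₂ - κ i₀ * t ≤ 0) :
    ∑ i, κ' i = 0 ∧
      ∑ i, κ' i • (Function.update w i₀ (w i₀ + t • (w j₂ - w j₁)) : J → E n) i = 0 ∧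
    shear (wtG κ h0 b) (w j₂ - w j₁) t '' convexHull ℝ (range w) =
      convexHull ℝ (range (Function.update w i₀ (w i₀ + t • (w j₂ - w j₁)))) := by
  have hij1 : i₀ ≠ j₁ := by rintro rfl; linarith
  have hij2 : i₀ ≠ j₂ := by rintro rfl; linarith
  set v : E n := w j₂ - w j₁ with hv
  set w' : J → E n := Function.update w i₀ (w i₀ + t • v) with hw'
  have hw'0 : w' i₀ = w i₀ + t • v := by rw [hw', Function.update_self]
  have hw'1 : ∀ j, j ≠ i₀ → w' j = w j := fun j hj => by rw [hw', Function.update_of_ne hj]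
  have hκ'' : κ' = fun i => κ i + (κ i₀ * t) * ((if i = j₁ then 1 else 0) -
      (if i = j₂ then 1 else 0)) := by
    funext i
    rcases eq_or_ne i j₁ with rfl | h
    · rw [hκ'1]; simp [hne]
    · rcases eq_or_ne i j₂ with rfl | h'
      · rw [hκ'2]; simp [h]; ring
      · rw [hκ'3 i h h']; simp [h, h']
  have hsum : ∑ i, κ' i = 0 := by
    rw [hκ'']
    simp only [Finset.sum_add_distrib, ← Finset.mul_sum, Finset.sum_sub_distrib]
    rw [hκ]; simp
  have hcomb : ∀ c : J → ℝ, ∑ i, c i • w' i = ∑ i, c i • w i + (c i₀ * t) • v :=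
    fun c => comb_update hw'
  have hsumw : ∑ i, κ' i • w' i = 0 := by
    rw [hcomb, hκ'3 i₀ hij1 hij2, hκ'']
    simp only [add_smul, Finset.sum_add_distrib, mul_smul, sub_smul, ← Finset.smul_sum,
      Finset.sum_sub_distrib]
    rw [hκw]
    simp only [ite_smul, one_smul, zero_smul, Finset.sum_ite_eq', Finset.mem_univ, if_true, hv]
    module
  refine ⟨hsum, hsumw, ?_⟩
  have hinv := wtG_inv hi h0 hj1 hj2 hb
  apply Subset.antisymm
  · rintro _ ⟨y, hy, rfl⟩
    obtain ⟨c, hc0, hc1, hc, hcβ⟩ := exists_repG (w' := w) (κ' := κ) h0 hb (fun _ _ => rfl)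
      (fun _ _ => rfl) (fun _ h => h) hκ hκw hy
    rw [mem_hull]
    refine ⟨c, hc0, hc1, ?_⟩
    rw [hcomb, hc, hcβ]
    unfold shear wtG
    rw [mul_comm t]
  · intro x hx
    obtain ⟨c, hc0, hc1, hc, hcβ⟩ := exists_repG (w' := w') (κ' := κ') h0 hb hw'1
      (fun i hi => hκ'3 i (by rintro rfl; linarith) (by rintro rfl; linarith))
      (fun i hi => by
        rcases eq_or_ne i j₁ with rfl | h
        · rw [hκ'1]; exact ht1
        · rcases eq_or_ne i j₂ with rfl | h'
          · rw [hκ'2]; exact ht2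
          · rw [hκ'3 i h h']; exact hi) hsum hsumw hx
    have hy : ∑ i, c i • w i ∈ convexHull ℝ (range w) := (mem_hull w _).2 ⟨c, hc0, hc1, rfl⟩
    refine ⟨_, hy, ?_⟩
    have hxy : ∑ i, c i • w i = x + (-(c i₀ * t)) • v := by
      rw [← hc, hcomb]; module
    unfold shear
    rw [hxy, hinv]
    change x + (-(c i₀ * t)) • v + (t * (κ i₀ * (posG κ).sup' _ (fun i => -b x i / κ i))) • v = x
    rw [← hcβ]
    module

end

/-- **moving the vertices of a block**: `base` is the inequality when a point of the block is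
redundant. -/
theorem few_gen (hp : 0 < p) (B : Finset J) (w₀ : J → E n)
    (base : ∀ w : J → E n, (∀ j, j ∉ B → w j = w₀ j) → ∀ j ∈ B,
      w j ∈ convexHull ℝ (w '' {j}ᶜ) → (interior (convexHull ℝ (range w))).Nonempty →
      ∀ z : E n, minS p n ≤ mahlerLp p ((fun x => x - z) '' convexHull ℝ (range w))) :
    ∀ (m : ℕ) (w : J → E n) (κ : J → ℝ), (∀ j, j ∉ B → w j = w₀ j) → (∀ j, j ∉ B → κ j = 0) →
    κ ≠ 0 → ∑ i, κ i = 0 → ∑ i, κ i • w i = 0 →
    (∀ c : J → ℝ, ∑ i, c i = 0 → ∑ i, c i • w i = 0 → ∃ r : ℝ, ∀ i ∈ B, c i = r * κ i) →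
    (Finset.univ.filter fun i => κ i < 0).card ≤ m →
    (interior (convexHull ℝ (range w))).Nonempty → ∀ z : E n,
    minS p n ≤ mahlerLp p ((fun x => x - z) '' convexHull ℝ (range w)) := by
  intro m
  induction m with
  | zero =>
    intro w κ hw0 hκ0 h0 hκ hκw hD hm hi z
    exfalso
    have h1 : ∀ i, 0 ≤ κ i := by
      intro i
      by_contra h
      push Not at h
      have : i ∈ Finset.univ.filter fun i => κ i < 0 := by simp [h]
      have := Finset.card_pos.2 ⟨i, this⟩
      omega
    apply h0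
    funext i
    exact (Finset.sum_eq_zero_iff_of_nonneg (fun i _ => h1 i)).1 hκ i (Finset.mem_univ i)
  | succ m ih =>
    intro w κ hw0 hκ0 h0 hκ hκw hD hm hi z
    have hB : ∀ i, κ i ≠ 0 → i ∈ B := by
      intro i h
      by_contra h'
      exact h (hκ0 i h')
    -- a negative index and a positive index
    obtain ⟨j₁, hj1⟩ : ∃ j, κ j < 0 := by
      by_contra h
      push Not at h
      apply h0
      funext i
      exact (Finset.sum_eq_zero_iff_of_nonneg (fun i _ => h i)).1 hκ i (Finset.mem_univ i)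
    obtain ⟨i₀, hi0⟩ : ∃ i, 0 < κ i := by
      by_contra h
      push Not at h
      have h2 := (Finset.sum_eq_zero_iff_of_nonpos (fun i _ => h i)).1 hκ j₁ (Finset.mem_univ j₁)
      linarith
    by_cases hu : ∃ j₂, j₂ ≠ j₁ ∧ κ j₂ < 0
    · obtain ⟨j₂, hne, hj2⟩ := hu
      by_cases hv : w j₂ - w j₁ = 0
      · -- a repeated point
        refine base w hw0 j₂ (hB _ hj2.ne) ?_ hi z
        rw [sub_eq_zero.1 hv]
        exact subset_convexHull ℝ _ ⟨j₁, by simpa using hne.symm, rfl⟩
      obtain ⟨b, hbc, hb⟩ := exists_coordG hi (κ := κ) (i₀ := i₀) hi0.ne' (by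
        intro c hc hcw
        obtain ⟨r, hr⟩ := hD c hc hcw
        exact ⟨r, fun i hi => hr i (hB i hi)⟩)
      have hinv := wtG_inv hi hi0 hj1 hj2 hb
      -- the two end points
      have key : ∀ (t : ℝ) (ht1 : κ j₁ + κ i₀ * t ≤ 0) (ht2 : κ j₂ - κ i₀ * t ≤ 0)
          (_ : κ j₁ + κ i₀ * t = 0 ∨ κ j₂ - κ i₀ * t = 0),
          Convex ℝ (shear (wtG κ hi0 b) (w j₂ - w j₁) t '' convexHull ℝ (range w)) ∧
          ∀ z : E n, minS p n ≤ mahlerLp p ((fun x => x - z) ''
            (shear (wtG κ hi0 b) (w j₂ - w j₁) t '' convexHull ℝ (range w))) := by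
        intro t ht1 ht2 hz
        have hij1 : i₀ ≠ j₁ := by rintro rfl; linarith
        have hij2 : i₀ ≠ j₂ := by rintro rfl; linarith
        set κ' : J → ℝ := Function.update (Function.update κ j₂ (κ j₂ - κ i₀ * t)) j₁
          (κ j₁ + κ i₀ * t) with hκ'
        have e1 : κ' j₁ = κ j₁ + κ i₀ * t := by rw [hκ', Function.update_self]
        have e2 : κ' j₂ = κ j₂ - κ i₀ * t := by
          rw [hκ', Function.update_of_ne hne, Function.update_self]
        have e3 : ∀ i, i ≠ j₁ → i ≠ j₂ → κ' i = κ i := fun i h h' => by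
          rw [hκ', Function.update_of_ne h, Function.update_of_ne h']
        obtain ⟨s1, s2, himg⟩ := shear_imageG hi hκ hκw hi0 hj1 hj2 hne.symm hb e1 e2 e3 ht1 ht2
        have hint : (interior (convexHull ℝ (range (Function.update w i₀
            (w i₀ + t • (w j₂ - w j₁)))))).Nonempty := by
          rw [← himg]
          have h1 := (shearH (wtG_cont hi0 hbc) hinv t).image_interior (convexHull ℝ (range w))
          have h2 : (interior (⇑(shearH (wtG_cont hi0 hbc) hinv t) ''
            convexHull ℝ (range w))).Nonempty := by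
            rw [← h1]; exact hi.image _
          exact h2
        rw [himg]
        refine ⟨convex_convexHull ℝ _, ih _ κ' ?_ ?_ ?_ s1 s2 ?_ ?_ hint⟩
        · intro j hj
          rw [Function.update_of_ne (by rintro rfl; exact hj (hB _ hi0.ne'))]
          exact hw0 j hj
        · intro j hj
          rw [e3 j (by rintro rfl; exact hj (hB _ hj1.ne)) (by rintro rfl; exact hj (hB _ hj2.ne))]
          exact hκ0 j hj
        · intro h
          have := congrFun h i₀
          rw [e3 i₀ hij1 hij2] at this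
          simp at this
          linarith
        · -- the dependences
          intro c hc hcw
          rw [comb_update rfl] at hcw
          obtain ⟨r, hr⟩ := hD (fun i => c i + (c i₀ * t) * ((if i = j₂ then 1 else 0) -
            (if i = j₁ then 1 else 0))) (by
            simp only [Finset.sum_add_distrib, ← Finset.mul_sum, Finset.sum_sub_distrib]
            rw [hc]; simp) (by
            simp only [add_smul, Finset.sum_add_distrib, mul_smul, sub_smul,
              ← Finset.smul_sum, Finset.sum_sub_distrib]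
            simp only [ite_smul, one_smul, zero_smul, Finset.sum_ite_eq', Finset.mem_univ, if_true]
            rw [← hcw]
            module)
          have hr0 := hr i₀ (hB _ hi0.ne')
          simp only [hij1, hij2, if_false, sub_zero, mul_zero, add_zero] at hr0
          refine ⟨r, fun i hiB => ?_⟩
          have hri := hr i hiB
          rcases eq_or_ne i j₁ with rfl | h
          · simp only [if_true, hne.symm, if_false, zero_sub] at hri
            rw [e1]
            rw [hr0] at hri
            linarith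
          · rcases eq_or_ne i j₂ with rfl | h'
            · simp only [if_true, hne, if_false, sub_zero] at hri
              rw [e2]
              rw [hr0] at hri
              linarith
            · simp only [h, h', if_false, sub_zero, mul_zero, add_zero] at hri
              rw [e3 i h h', hri]
        · -- fewer negative indices
          have hsub : (Finset.univ.filter fun i => κ' i < 0) ⊂
              (Finset.univ.filter fun i => κ i < 0) := by
            rw [Finset.ssubset_iff_of_subset]
            · rcases hz with hz | hz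
              · exact ⟨j₁, by simp [hj1], by simp [e1, hz]⟩
              · exact ⟨j₂, by simp [hj2], by simp [e2, hz]⟩
            · intro i hi'
              simp only [Finset.mem_filter, Finset.mem_univ, true_and] at hi' ⊢
              rcases eq_or_ne i j₁ with rfl | h
              · exact hj1
              · rcases eq_or_ne i j₂ with rfl | h'
                · exact hj2
                · rwa [e3 i h h'] at hi'
          have := Finset.card_lt_card hsub
          omega
      have hk0 := key (κ j₂ / κ i₀) (by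
          rw [mul_div_cancel₀ _ hi0.ne']; linarith) (by
          rw [mul_div_cancel₀ _ hi0.ne']; linarith) (Or.inr (by
          rw [mul_div_cancel₀ _ hi0.ne']; linarith))
      have hk1 := key (-κ j₁ / κ i₀) (by
          rw [mul_div_cancel₀ _ hi0.ne']; linarith) (by
          rw [mul_div_cancel₀ _ hi0.ne']; linarith) (Or.inl (by
          rw [mul_div_cancel₀ _ hi0.ne']; linarith))
      exact moving' hp (hull_compact w) (convex_convexHull ℝ _) hi (wtG_cont hi0 hbc) hv hinv
        (div_neg_of_neg_of_pos hj2 hi0) (div_pos (neg_pos.2 hj1) hi0) hk0.1 hk1.1 hk0.2 hk1.2 z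
    · -- a single negative index: the point is redundant
      push Not at hu
      refine base w hw0 j₁ (hB _ hj1.ne) ?_ hi z
      have hsplit : ∑ i ∈ Finset.univ.erase j₁, κ i = -κ j₁ := by
        have := Finset.add_sum_erase Finset.univ κ (Finset.mem_univ j₁)
        rw [hκ] at this
        linarith
      have hsplitw : ∑ i ∈ Finset.univ.erase j₁, κ i • w i = -(κ j₁ • w j₁) := by
        have := Finset.add_sum_erase Finset.univ (fun i => κ i • w i) (Finset.mem_univ j₁)
        rw [hκw] at this
        exact (neg_eq_of_add_eq_zero_right this).symm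
      have hw1 : w j₁ = ∑ i ∈ Finset.univ.erase j₁, (κ i / (-κ j₁)) • w i := by
        have h2 : ∑ i ∈ Finset.univ.erase j₁, (κ i / (-κ j₁)) • w i =
            (-κ j₁)⁻¹ • ∑ i ∈ Finset.univ.erase j₁, κ i • w i := by
          rw [Finset.smul_sum]
          refine Finset.sum_congr rfl fun k _ => ?_
          rw [smul_smul, div_eq_inv_mul]
        rw [h2, hsplitw, ← neg_smul, smul_smul, inv_mul_cancel₀ (by linarith), one_smul]
      rw [hw1]
      refine (convex_convexHull ℝ _).sum_mem ?_ ?_ ?_
      · intro i hi'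
        exact div_nonneg (hu i (Finset.ne_of_mem_erase hi')) (by linarith)
      · rw [← Finset.sum_div, hsplit, div_self (by linarith)]
      · intro i hi'
        exact subset_convexHull ℝ _ ⟨i, by simpa using Finset.ne_of_mem_erase hi', rfl⟩

end Pool.Agent.Helper98.JN
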