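import Pool.Agent.Helper98.JN.A

/-!
# Joins of blocks of `d + 2` points in dimension `d`, polygons and points
-/

set_option autoImplicit false

namespace Pool.Agent.Helper98.JN

open MeasureTheory Set Filter Topology
open scoped ENNReal NNReal
open Pool.Agent.Y513.LPM (E Z mahlerLp supportLp)
open Pool.Agent.Helper57K1.LM

variable {n : ℕ} {p : ℝ}

/-- the lifted span -/
abbrev lsp (X : Set (E n)) : Submodule ℝ (E n × ℝ) :=
  Submodule.span ℝ ((fun x : E n => (x, (1 : ℝ))) '' X)

/-- **removing a block** -/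
theorem block (hp : 0 < p) {R : Finset (E n)} {d : ℕ}
    (hR : Module.finrank ℝ (lsp (R : Set (E n))) + (d + 1) ≤ n + 1)
    (base : ∀ S : Finset (E n), S.card ≤ d + 1 →
      (interior (convexHull ℝ ((S : Set (E n)) ∪ R))).Nonempty →
      ∀ z, minS p n ≤ mahlerLp p ((fun x => x - z) '' convexHull ℝ ((S : Set (E n)) ∪ R)))
    (W : Finset (E n)) (hW : W.card ≤ d + 2)
    (hWd : Module.finrank ℝ (lsp (W : Set (E n))) ≤ d + 1)
    (hint : (interior (convexHull ℝ ((W : Set (E n)) ∪ R))).Nonempty) (z : E n) :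
    minS p n ≤ mahlerLp p ((fun x => x - z) '' convexHull ℝ ((W : Set (E n)) ∪ R)) := by
  classical
  by_cases hsmall : W.card ≤ d + 1
  · exact base W hsmall hint z
  have hcard : W.card = d + 2 := by omega
  -- enumeration
  obtain ⟨u, hu⟩ : ∃ u : Fin (d + 2) → E n, range u = (W : Set (E n)) := by
    have e := W.equivFinOfCardEq hcard
    refine ⟨fun i => (e.symm i : E n), ?_⟩
    ext x
    constructor
    · rintro ⟨i, rfl⟩
      exact (e.symm i).2
    · intro hx
      exact ⟨e ⟨x, hx⟩, by simp⟩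
  set w₀ : Fin (d + 2) ⊕ R → E n := Sum.elim u (fun x => (x : E n)) with hw₀
  have hrange : range w₀ = (W : Set (E n)) ∪ R := by
    rw [hw₀, Set.Sum.elim_range, hu]
    congr 1
    ext x
    simp
  -- dimensions
  set VW := lsp (W : Set (E n)) with hVW
  set VR := lsp (R : Set (E n)) with hVR
  have htop : VW ⊔ VR = ⊤ := by
    rw [hVW, hVR, ← Submodule.span_union, ← image_union]
    exact span_top hint
  have hdim := Submodule.finrank_sup_add_finrank_inf_eq VW VR
  have hfull : Module.finrank ℝ (VW ⊔ VR : Submodule ℝ (E n × ℝ)) = n + 1 := by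
    rw [htop, finrank_top]
    simp
  have hinf0 : Module.finrank ℝ (VW ⊓ VR : Submodule ℝ (E n × ℝ)) = 0 := by omega
  have hVWd : Module.finrank ℝ VW = d + 1 := by omega
  have hinf : VW ⊓ VR = ⊥ := Submodule.finrank_eq_zero.1 hinf0
  -- the dependence
  set Ψ := Fintype.linearCombination ℝ (fun i => (u i, (1 : ℝ))) with hΨ
  have hrangeΨ : LinearMap.range Ψ = VW := by
    rw [hΨ, Fintype.range_linearCombination, hVW]
    congr 1
    rw [← hu, ← range_comp]
    rfl
  have hΨv : ∀ c : Fin (d + 2) → ℝ, Ψ c = (∑ i, c i • u i, ∑ i, c i) := by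
    intro c
    rw [hΨ, Fintype.linearCombination_apply]
    ext1
    · simp [Prod.fst_sum]
    · simp [Prod.snd_sum]
  have hker : Module.finrank ℝ (LinearMap.ker Ψ) = 1 := by
    have h1 := Ψ.finrank_range_add_finrank_ker
    rw [hrangeΨ, hVWd] at h1
    simp at h1
    omega
  have hne : LinearMap.ker Ψ ≠ ⊥ := by
    intro h
    rw [h] at hker
    simp at hker
  obtain ⟨κ₀, hκ₀, hκ₀0⟩ := (Submodule.ne_bot_iff _).1 hne
  have hprop : ∀ c ∈ LinearMap.ker Ψ, ∃ r : ℝ, c = r • κ₀ := by
    intro c hc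
    obtain ⟨r, hr⟩ := (finrank_eq_one_iff_of_nonzero' (⟨κ₀, hκ₀⟩ : LinearMap.ker Ψ) (by
      intro h
      exact hκ₀0 (congrArg Subtype.val h))).1 hker ⟨c, hc⟩
    exact ⟨r, (congrArg Subtype.val hr).symm⟩
  have hκΨ : Ψ κ₀ = 0 := hκ₀
  rw [hΨv] at hκΨ
  have hκ1 : ∑ i, κ₀ i • u i = 0 := congrArg Prod.fst hκΨ
  have hκ2 : ∑ i, κ₀ i = 0 := congrArg Prod.snd hκΨ
  set κ : Fin (d + 2) ⊕ R → ℝ := Sum.elim κ₀ (fun _ => 0) with hκ
  set B : Finset (Fin (d + 2) ⊕ R) := Finset.univ.filter (fun j => j.isLeft = true) with hB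
  have hBl : ∀ i, (Sum.inl i : Fin (d + 2) ⊕ R) ∈ B := by
    intro i; rw [hB]; simp
  have hBr : ∀ x, (Sum.inr x : Fin (d + 2) ⊕ R) ∉ B := by
    intro i; rw [hB]; simp
  have key := few_gen (J := Fin (d + 2) ⊕ R) hp B w₀ ?_ _ w₀ κ (fun _ _ => rfl) ?_ ?_ ?_ ?_ ?_
    le_rfl (by rw [hrange]; exact hint) z
  · rw [hrange] at key
    exact key
  · -- a redundant point
    intro w hw j hj hred hiw z'
    rcases j with i | x
    swap
    · exact absurd hj (hBr x)
    set S : Finset (E n) := (Finset.univ.erase i).image (fun k => w (Sum.inl k)) with hS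
    have hScard : S.card ≤ d + 1 := by
      have h1 : S.card ≤ (Finset.univ.erase i : Finset (Fin (d + 2))).card := Finset.card_image_le
      rw [Finset.card_erase_of_mem (Finset.mem_univ _), Finset.card_univ, Fintype.card_fin] at h1
      omega
    have hwr : ∀ x : R, w (Sum.inr x) = (x : E n) := by
      intro x
      rw [hw _ (hBr x), hw₀]
      rfl
    have hsub1 : w '' {Sum.inl i}ᶜ ⊆ (S : Set (E n)) ∪ R := by
      rintro _ ⟨j, hj, rfl⟩
      rcases j with k | x
      · left
        rw [hS, Finset.coe_image]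
        refine ⟨k, ?_, rfl⟩
        rw [Finset.mem_coe, Finset.mem_erase]
        refine ⟨?_, Finset.mem_univ _⟩
        rintro rfl
        exact hj rfl
      · right
        rw [hwr]
        exact x.2
    have hhull : convexHull ℝ (range w) = convexHull ℝ ((S : Set (E n)) ∪ R) := by
      apply hull_replace
      · refine Subset.trans ?_ (subset_convexHull ℝ _)
        rintro y (hy | hy)
        · rw [hS, Finset.coe_image] at hy
          obtain ⟨k, -, rfl⟩ := hy
          exact ⟨_, rfl⟩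
        · exact ⟨Sum.inr ⟨y, hy⟩, hwr _⟩
      · rintro _ ⟨j, rfl⟩
        by_cases hji : j = Sum.inl i
        · rw [hji]
          exact convexHull_mono hsub1 hred
        · exact subset_convexHull ℝ _ (hsub1 ⟨j, hji, rfl⟩)
    rw [hhull] at hiw ⊢
    exact base S hScard hiw z'
  · intro j hj
    rcases j with i | x
    · exact absurd (hBl i) hj
    · rfl
  · intro h
    apply hκ₀0
    funext i
    exact congrFun h (Sum.inl i)
  · rw [Fintype.sum_sum_type]
    simp only [hκ, Sum.elim_inl, Sum.elim_inr, Finset.sum_const_zero, add_zero]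
    exact hκ2
  · rw [Fintype.sum_sum_type]
    simp only [hκ, hw₀, Sum.elim_inl, Sum.elim_inr, zero_smul, Finset.sum_const_zero, add_zero]
    exact hκ1
  · -- all the dependences
    intro c hc hcw
    rw [Fintype.sum_sum_type] at hc hcw
    simp only [hw₀, Sum.elim_inl, Sum.elim_inr] at hcw
    have h1 : Ψ (fun i => c (Sum.inl i)) ∈ VW := by
      rw [← hrangeΨ]
      exact ⟨_, rfl⟩
    have h2 : Ψ (fun i => c (Sum.inl i)) = -∑ x : R, c (Sum.inr x) • ((x : E n), (1 : ℝ)) := by
      rw [hΨv]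
      ext1
      · simp only [Prod.fst_neg, Prod.fst_sum, Prod.smul_fst]
        exact eq_neg_of_add_eq_zero_left hcw
      · simp only [Prod.snd_neg, Prod.snd_sum, Prod.smul_snd, smul_eq_mul, mul_one]
        exact eq_neg_of_add_eq_zero_left hc
    have h3 : Ψ (fun i => c (Sum.inl i)) ∈ VR := by
      rw [h2]
      refine VR.neg_mem (VR.sum_mem fun x _ => VR.smul_mem _ (Submodule.subset_span ?_))
      exact ⟨x, x.2, rfl⟩
    have h4 : Ψ (fun i => c (Sum.inl i)) ∈ VW ⊓ VR := Submodule.mem_inf.2 ⟨h1, h3⟩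
    rw [hinf, Submodule.mem_bot] at h4
    obtain ⟨r, hr⟩ := hprop _ h4
    refine ⟨r, fun j hj => ?_⟩
    rcases j with i | x
    · have := congrFun hr i
      rw [hκ]
      simpa using this
    · exact absurd hj (hBr x)

/-- the lifted span of a union -/
lemma fr_sup (X Y : Set (E n)) : Module.finrank ℝ (lsp (X ∪ Y)) ≤
    Module.finrank ℝ (lsp X) + Module.finrank ℝ (lsp Y) := by
  unfold lsp
  rw [image_union, Submodule.span_union]
  exact Submodule.finrank_add_le_finrank_add_finrank _ _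

lemma fr_blocks : ∀ (l : ℕ) (X : Fin l → Set (E n)) (d : Fin l → ℕ)
    (_ : ∀ j, Module.finrank ℝ (lsp (X j)) ≤ d j + 1),
    Module.finrank ℝ (lsp (⋃ j, X j)) ≤ ∑ j, (d j + 1) := by
  intro l
  induction l with
  | zero =>
    intro X d _
    rw [iUnion_of_empty]
    unfold lsp
    simp
  | succ l ih =>
    intro X d h
    rw [iUnion_succ, Fin.sum_univ_succ]
    have h1 := fr_sup (X 0) (⋃ i : Fin l, X i.succ)
    have h2 := ih (fun i => X i.succ) (fun i => d i.succ) (fun i => h i.succ)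
    have h3 := h 0
    omega

/-- **joins of blocks, polygons and points** -/
theorem joinsB (hp : 0 < p) : ∀ (l : ℕ) (d : Fin l → ℕ) (k m : ℕ)
    (_ : 3 * k + ∑ j, (d j + 1) + m ≤ n + 1)
    (W : Fin l → Finset (E n)) (_ : ∀ j, (W j).card ≤ d j + 2)
    (_ : ∀ j, Module.finrank ℝ (lsp (W j : Set (E n))) ≤ d j + 1)
    (S : Fin k → Finset (E n)) (D : Fin k → Submodule ℝ (E n))
    (_ : ∀ i, Module.finrank ℝ (D i) ≤ 2) (o : Fin k → E n)
    (_ : ∀ i, ∀ x ∈ S i, x - o i ∈ D i) (A : Finset (E n)) (_ : A.card ≤ m)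
    (_ : (interior (convexHull ℝ ((⋃ i, (S i : Set (E n))) ∪ ((⋃ j, (W j : Set (E n))) ∪ A)))).Nonempty)
    (z : E n),
    minS p n ≤ mahlerLp p ((fun x => x - z) ''
      convexHull ℝ ((⋃ i, (S i : Set (E n))) ∪ ((⋃ j, (W j : Set (E n))) ∪ A))) := by
  classical
  intro l
  induction l with
  | zero =>
    intro d k m hkm W hW hWd S D hD o hS A hA hint z
    rw [iUnion_of_empty (fun j : Fin 0 => (W j : Set (E n))), empty_union] at hint ⊢
    exact joins hp k m (by simpa using hkm) S D hD o hS A hA hint z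
  | succ l ih =>
    intro d k m hkm W hW hWd S D hD o hS A hA hint z
    rw [Fin.sum_univ_succ] at hkm
    set R : Finset (E n) := (Finset.univ.biUnion S) ∪ ((Finset.univ.biUnion fun j : Fin l =>
      W j.succ) ∪ A) with hR
    have hRc : (R : Set (E n)) = (⋃ i, (S i : Set (E n))) ∪
        ((⋃ j : Fin l, (W j.succ : Set (E n))) ∪ A) := by
      rw [hR]
      push_cast
      simp
    have hfr : Module.finrank ℝ (lsp (R : Set (E n))) + (d 0 + 1) ≤ n + 1 := by
      rw [hRc]
      have h1 : Module.finrank ℝ (lsp ((⋃ i, (S i : Set (E n))) ∪ (A : Set (E n)))) ≤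
          3 * k + A.card := fr_union k (fun i : Fin k => (S i : Set (E n)))
        (fun i : Fin k => fr_planar (hD i) (o := o i) (fun x hx => hS i x hx)) A
      have h2 := fr_blocks l (fun j : Fin l => (W j.succ : Set (E n))) (fun j => d j.succ)
        (fun j => hWd j.succ)
      have h3 := fr_sup ((⋃ i, (S i : Set (E n))) ∪ (A : Set (E n)))
        (⋃ j : Fin l, (W j.succ : Set (E n)))
      have h4 : (⋃ i, (S i : Set (E n))) ∪ ((⋃ j : Fin l, (W j.succ : Set (E n))) ∪ A) =
          ((⋃ i, (S i : Set (E n))) ∪ (A : Set (E n))) ∪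
            (⋃ j : Fin l, (W j.succ : Set (E n))) := by
        ext x; simp only [mem_union]; tauto
      rw [h4]
      omega
    have hunion : (⋃ i, (S i : Set (E n))) ∪ ((⋃ j, (W j : Set (E n))) ∪ A) = ↑(W 0) ∪ ↑R := by
      rw [iUnion_succ (fun j => (W j : Set (E n))), hRc]
      ext x; simp only [mem_union]; tauto
    rw [hunion] at hint ⊢
    refine block hp hfr ?_ (W 0) (hW 0) (hWd 0) hint z
    intro S₀ hS₀ hint₀ z₀
    have h2 : (↑S₀ ∪ ↑R : Set (E n)) = (⋃ i, (S i : Set (E n))) ∪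
        ((⋃ j : Fin l, (W j.succ : Set (E n))) ∪ ↑(A ∪ S₀)) := by
      rw [hRc, Finset.coe_union]
      ext x; simp only [mem_union]; tauto
    rw [h2] at hint₀ ⊢
    refine ih (fun j => d j.succ) k (m + (d 0 + 1)) (by omega) (fun j => W j.succ)
      (fun j => hW j.succ) (fun j => hWd j.succ) S D hD o hS (A ∪ S₀) ?_ hint₀ z₀
    have := Finset.card_union_le A S₀
    omega

end Pool.Agent.Helper98.JN
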